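import Mathlib

/-!
# PPG/Alg: the ideal of a cubic form (pure algebra)

`F = (a, 3b, 3c, d)`, `P = b² - ac`, `Q = bc - ad`, `R = c² - bd`; `w + w' = Q`, `w w' = PR`.
`(P, w')³ = (b P - a w')`.
-/

set_option autoImplicit false

namespace Pool.Agent.PPG

theorem alg_cube {O : Type*} [CommRing O] (a b c d w w' u v t : O)
    (h1 : w + w' = b * c - a * d) (h2 : w * w' = (b ^ 2 - a * c) * (c ^ 2 - b * d))
    (h3 : u * (b ^ 2 - a * c) + v * (b * c - a * d) + t * (c ^ 2 - b * d) = 1) :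
    Ideal.span {b ^ 2 - a * c, w'} ^ 3 = Ideal.span {b * (b ^ 2 - a * c) - a * w'} := by
  obtain ⟨P, hP⟩ : ∃ P, P = b ^ 2 - a * c := ⟨_, rfl⟩
  obtain ⟨Q, hQ⟩ : ∃ Q, Q = b * c - a * d := ⟨_, rfl⟩
  obtain ⟨R, hR⟩ : ∃ R, R = c ^ 2 - b * d := ⟨_, rfl⟩
  rw [← hP, ← hQ, ← hR] at h3
  rw [← hQ] at h1
  rw [← hP, ← hR] at h2
  rw [← hP]
  have hw : w = Q - w' := by rw [← h1]; ring
  have hq : w' ^ 2 = Q * w' - P * R := by rw [← h2, hw]; ring
  -- the four products
  have e0 : (b * P - a * w') * (b * P - a * w) = P ^ 3 := by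
    rw [hw]
    have : (b * P - a * w') * (b * P - a * (Q - w')) =
      b ^ 2 * P ^ 2 - a * b * P * Q + a ^ 2 * (Q * w' - w' ^ 2) := by ring
    rw [this, hq, hQ, hR, hP]
    ring
  have e1 : (b * P - a * w') * (b * w' - a * R) = P ^ 2 * w' := by
    have : (b * P - a * w') * (b * w' - a * R) =
      b ^ 2 * P * w' - a * b * P * R - a * b * w' ^ 2 + a ^ 2 * R * w' := by ring
    rw [this, hq, hQ, hR, hP]
    ring
  have e2 : (b * P - a * w') * (c * w' - b * R) = P * w' ^ 2 := by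
    have : (b * P - a * w') * (c * w' - b * R) =
      b * c * P * w' - b ^ 2 * P * R - a * c * w' ^ 2 + a * b * R * w' := by ring
    rw [this, hq, hQ, hR, hP]
    ring
  have e3 : (b * P - a * w') * (d * w' - c * R) = w' ^ 3 := by
    have : (b * P - a * w') * (d * w' - c * R) =
      b * d * P * w' - b * c * P * R - a * d * w' ^ 2 + a * c * R * w' := by ring
    have h4 : w' ^ 3 = Q * (Q * w' - P * R) - P * R * w' := by
      rw [pow_succ, hq]
      linear_combination Q * hq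
    rw [this, h4, hq, hQ, hR, hP]
    ring
  apply le_antisymm
  · -- the ideal of the products
    have hle : ∀ x ∈ Ideal.span {P, w'}, ∀ y ∈ Ideal.span {P, w'}, ∀ z ∈ Ideal.span {P, w'},
        x * y * z ∈ Ideal.span {b * P - a * w'} := by
      intro x hx y hy z hz
      rw [Ideal.mem_span_pair] at hx hy hz
      obtain ⟨x1, x2, rfl⟩ := hx
      obtain ⟨y1, y2, rfl⟩ := hy
      obtain ⟨z1, z2, rfl⟩ := hz
      rw [Ideal.mem_span_singleton]
      refine ⟨x1 * y1 * z1 * (b * P - a * w) +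
        (x1 * y1 * z2 + x1 * y2 * z1 + x2 * y1 * z1) * (b * w' - a * R) +
        (x1 * y2 * z2 + x2 * y1 * z2 + x2 * y2 * z1) * (c * w' - b * R) +
        x2 * y2 * z2 * (d * w' - c * R), ?_⟩
      linear_combination (-(x1 * y1 * z1)) * e0 -
        (x1 * y1 * z2 + x1 * y2 * z1 + x2 * y1 * z1) * e1 -
        (x1 * y2 * z2 + x2 * y1 * z2 + x2 * y2 * z1) * e2 - x2 * y2 * z2 * e3
    rw [pow_succ, pow_succ, pow_one, Ideal.mul_le]
    intro r hr s hs
    refine Submodule.mul_induction_on hr (fun x hx y hy => hle x hx y hy s hs) ?_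
    intro x y hx hy
    rw [add_mul]
    exact add_mem hx hy
  · rw [Ideal.span_singleton_le_iff_mem]
    have m0 : P ^ 3 ∈ Ideal.span {P, w'} ^ 3 :=
      Ideal.pow_mem_pow (Ideal.subset_span (by simp)) 3
    have mP : P ∈ Ideal.span {P, w'} := Ideal.subset_span (by simp)
    have mw : w' ∈ Ideal.span {P, w'} := Ideal.subset_span (by simp)
    have m3 : w' ^ 3 ∈ Ideal.span {P, w'} ^ 3 := Ideal.pow_mem_pow mw 3
    have m1 : P ^ 2 * w' ∈ Ideal.span {P, w'} ^ 3 := by
      rw [pow_succ (Ideal.span {P, w'})]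
      exact Ideal.mul_mem_mul (Ideal.pow_mem_pow mP 2) mw
    have m2 : P * w' ^ 2 ∈ Ideal.span {P, w'} ^ 3 := by
      rw [pow_succ' (Ideal.span {P, w'})]
      exact Ideal.mul_mem_mul mP (Ideal.pow_mem_pow mw 2)
    have g0 : b * (b * P - a * w) - a * (b * w' - a * R) = P ^ 2 := by
      rw [hw, hP, hQ, hR]; ring
    have g1 : c * (b * P - a * w) - a * (c * w' - b * R) = P * Q := by
      rw [hw, hP, hQ, hR]; ring
    have g2 : c * (b * w' - a * R) - b * (c * w' - b * R) = P * R := by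
      rw [hP, hR]; ring
    have g3 : d * (b * P - a * w) - a * (d * w' - c * R) = Q ^ 2 - P * R := by
      rw [hw, hP, hQ, hR]; ring
    have g4 : d * (b * w' - a * R) - b * (d * w' - c * R) = Q * R := by
      rw [hQ, hR]; ring
    have g5 : d * (c * w' - b * R) - c * (d * w' - c * R) = R ^ 2 := by
      rw [hR]; ring
    have key : b * P - a * w' =
        (u ^ 2 * b + v ^ 2 * d + 2 * u * v * c) * P ^ 3 +
        (-(u ^ 2 * a) + v ^ 2 * c + 2 * u * t * c + 2 * v * t * d) * (P ^ 2 * w') +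
        (-(v ^ 2 * b) + t ^ 2 * d - 2 * u * v * a - 2 * u * t * b) * (P * w' ^ 2) +
        (-(v ^ 2 * a) - t ^ 2 * c - 2 * v * t * b) * w' ^ 3 := by
      rw [← e0, ← e1, ← e2, ← e3]
      have h5 : (u * P + v * Q + t * R) ^ 2 = 1 := by rw [h3, one_pow]
      have h6 : u ^ 2 * P ^ 2 + v ^ 2 * ((Q ^ 2 - P * R) + P * R) + t ^ 2 * R ^ 2 +
          2 * u * v * (P * Q) + 2 * u * t * (P * R) + 2 * v * t * (Q * R) = 1 := by
        rw [← h5]; ring
      linear_combination (-(b * P - a * w')) * h6 - (b * P - a * w') * (u ^ 2 * g0 +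
        v ^ 2 * (g3 + g2) + t ^ 2 * g5 + 2 * u * v * g1 + 2 * u * t * g2 + 2 * v * t * g4)
    rw [key]
    exact add_mem (add_mem (add_mem (Ideal.mul_mem_left _ _ m0) (Ideal.mul_mem_left _ _ m1))
      (Ideal.mul_mem_left _ _ m2)) (Ideal.mul_mem_left _ _ m3)

end Pool.Agent.PPG
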