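import Mathlib

/-!
# PPG/AlgB: the product of the ideal of a cubic form and its conjugate
-/

set_option autoImplicit false

namespace Pool.Agent.PPG

theorem alg_mul {O : Type*} [CommRing O] (P Q R w w' u v t : O)
    (h1 : w + w' = Q) (h2 : w * w' = P * R) (h3 : u * P + v * Q + t * R = 1) :
    Ideal.span {P, w} * Ideal.span {P, w'} = Ideal.span {P} := by
  apply le_antisymm
  · rw [Ideal.mul_le]
    intro r hr s hs
    rw [Ideal.mem_span_pair] at hr hs
    obtain ⟨x1, x2, rfl⟩ := hr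
    obtain ⟨y1, y2, rfl⟩ := hs
    rw [Ideal.mem_span_singleton]
    refine ⟨x1 * y1 * P + x1 * y2 * w' + x2 * y1 * w + x2 * y2 * R, ?_⟩
    linear_combination x2 * y2 * h2
  · rw [Ideal.span_singleton_le_iff_mem]
    have mP : P ∈ Ideal.span {P, w} := Ideal.subset_span (by simp)
    have mw : w ∈ Ideal.span {P, w} := Ideal.subset_span (by simp)
    have mP' : P ∈ Ideal.span {P, w'} := Ideal.subset_span (by simp)
    have mw' : w' ∈ Ideal.span {P, w'} := Ideal.subset_span (by simp)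
    have e : P = u * (P * P) + (v * (P * w') + v * (w * P)) + t * (w * w') := by
      linear_combination (-P) * h3 - v * P * h1 - t * h2
    have m1 := Ideal.mul_mem_mul mP mP'
    have m2 := Ideal.mul_mem_mul mP mw'
    have m3 := Ideal.mul_mem_mul mw mP'
    have m4 := Ideal.mul_mem_mul mw mw'
    have h := add_mem (add_mem (Ideal.mul_mem_left _ u m1) (add_mem (Ideal.mul_mem_left _ v m2)
      (Ideal.mul_mem_left _ v m3))) (Ideal.mul_mem_left _ t m4)
    rwa [← e] at h

/-- the products of the generators of the cube with the powers of `x P + y w` -/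
theorem alg_val {O : Type*} [CommRing O] (a b c d w w' x y : O)
    (h1 : w + w' = b * c - a * d) (h2 : w * w' = (b ^ 2 - a * c) * (c ^ 2 - b * d)) :
    (x * (b ^ 2 - a * c) + y * w) ^ 3 * (b * (b ^ 2 - a * c) - a * w') =
      (b ^ 2 - a * c) ^ 3 * (x ^ 3 * (b * (b ^ 2 - a * c) - a * w') +
        3 * x ^ 2 * y * (b * w - a * (c ^ 2 - b * d)) +
        3 * x * y ^ 2 * (c * w - b * (c ^ 2 - b * d)) +
        y ^ 3 * (d * w - c * (c ^ 2 - b * d))) := by
  obtain ⟨P, hP⟩ : ∃ P, P = b ^ 2 - a * c := ⟨_, rfl⟩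
  obtain ⟨Q, hQ⟩ : ∃ Q, Q = b * c - a * d := ⟨_, rfl⟩
  obtain ⟨R, hR⟩ : ∃ R, R = c ^ 2 - b * d := ⟨_, rfl⟩
  rw [← hQ] at h1
  rw [← hP, ← hR] at h2
  rw [← hP, ← hR]
  have hw : w' = Q - w := by rw [← h1]; ring
  have hq : w ^ 2 = Q * w - P * R := by rw [← h2, hw]; ring
  have e1 : (b * P - a * w') * w = P * (b * w - a * R) := by
    linear_combination (-a) * h2
  have e2 : (b * w - a * R) * w = P * (c * w - b * R) := by
    have : (b * w - a * R) * w = b * w ^ 2 - a * R * w := by ring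
    rw [this, hq, hQ, hR, hP]
    ring
  have e3 : (c * w - b * R) * w = P * (d * w - c * R) := by
    have : (c * w - b * R) * w = c * w ^ 2 - b * R * w := by ring
    rw [this, hq, hQ, hR, hP]
    ring
  linear_combination (3 * x ^ 2 * y * P ^ 2 + 3 * x * y ^ 2 * P * w + y ^ 3 * w ^ 2) * e1 +
    (3 * x * y ^ 2 * P ^ 2 + y ^ 3 * P * w) * e2 + y ^ 3 * P ^ 2 * e3

end Pool.Agent.PPG
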