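import Pool.Agent.FTB.DefsI

/-!
# PPG: the classes of order 3 attached to binary cubic forms

The cubic form `F = a x³ + 3 b x² y + 3 c x y² + d y³` with the Hessian `H = P x² + Q x y + R y²`,
`P = b² - ac`, `Q = bc - ad`, `R = c² - bd`, of discriminant `-D`, `D = 4PR - Q²` squarefree, `Q` odd.
In the field `K` with `|D_K| = D` it gives the ideal `(P, (Q - √-D) / 2)` of norm `P` whose cube is
generated by `(G(1,0) + F(1,0) √-D) / 2`.
-/

set_option autoImplicit false

namespace Pool.Agent.PPG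

open NumberField Pool.Agent.FTA Pool.Agent.FTB nonZeroDivisors

/-- the coefficients of the Hessian -/
def Pc (a b c : ℤ) : ℤ := b ^ 2 - a * c

/-- the middle coefficient of the Hessian -/
def Qc (a b c d : ℤ) : ℤ := b * c - a * d

/-- the value of the cubic form -/
def Fv (a b c d x y : ℤ) : ℤ := a * x ^ 3 + 3 * b * x ^ 2 * y + 3 * c * x * y ^ 2 + d * y ^ 3

/-- the value of the Hessian -/
def Hv (a b c d x y : ℤ) : ℤ := Pc a b c * x ^ 2 + Qc a b c d * x * y + Pc d c b * y ^ 2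

/-- the value of the cubic covariant -/
def Gv (a b c d x y : ℤ) : ℤ :=
  (2 * b * Pc a b c - a * Qc a b c d) * x ^ 3 +
    3 * (b * Qc a b c d - 2 * a * Pc d c b) * x ^ 2 * y +
    3 * (c * Qc a b c d - 2 * b * Pc d c b) * x * y ^ 2 +
    (d * Qc a b c d - 2 * c * Pc d c b) * y ^ 3

/-- `F` has a squarefree discriminant `D ≡ 3` modulo 4 and a positive definite Hessian -/
structure Nd (D : ℕ) (a b c d : ℤ) : Prop where
  hD : (D : ℤ) = 4 * Pc a b c * Pc d c b - Qc a b c d ^ 2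
  sf : Squarefree D
  od : Odd (Qc a b c d)
  p0 : 0 < Pc a b c

/-- moreover the Hessian is strictly reduced and `F(1,0) ≠ 0` -/
structure Nf (D : ℕ) (a b c d : ℤ) : Prop extends Nd D a b c d where
  p2 : 2 ≤ Pc a b c
  q1 : |Qc a b c d| < Pc a b c
  r1 : Pc a b c < Pc d c b
  ha : a ≠ 0

/-- `A` is the class of the cubic form `F` -/
def FC (K : IntermediateField ℚ ℂ) [NumberField K] (a b c d : ℤ) (A : ClassGroup (𝓞 K)) : Prop :=
  ∃ (w' : 𝓞 K) (I : (Ideal (𝓞 K))⁰), Co K w' (Qc a b c d) (-1) ∧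
    (I : Ideal (𝓞 K)) = Ideal.span {((Pc a b c : ℤ) : 𝓞 K), w'} ∧ ClassGroup.mk0 I = A

end Pool.Agent.PPG
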