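import Pool.Agent.PPB.FinB
import Pool.Agent.PPG.Defs

/-!
# PPG/BoxR: the box around `(1, 1, -1, -2)`
-/

set_option autoImplicit false

namespace Pool.Agent.PPG

open Pool.Agent.PPB

private theorem near (a0 T : ℝ) (m : ℤ) (hT : 0 < T)
    (h : m ∈ Finset.Icc ⌈T * a0 - 1 / 100 * T⌉ ⌊T * a0 + 1 / 100 * T⌋) :
    ∃ x : ℝ, (m : ℝ) = T * x ∧ a0 - 1 / 100 ≤ x ∧ x ≤ a0 + 1 / 100 := by
  rw [Finset.mem_Icc, Int.ceil_le, Int.le_floor] at h
  refine ⟨(m : ℝ) / T, by field_simp, ?_, ?_⟩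
  · rw [le_div_iff₀ hT]
    nlinarith [h.1]
  · rw [div_le_iff₀ hT]
    nlinarith [h.2]

/-- the real inequalities -/
private theorem ineq (x y z w : ℝ) (x1 : 99 / 100 ≤ x) (x2 : x ≤ 101 / 100) (y1 : 99 / 100 ≤ y)
    (y2 : y ≤ 101 / 100) (z1 : -101 / 100 ≤ z) (z2 : z ≤ -99 / 100) (w1 : -201 / 100 ≤ w)
    (w2 : w ≤ -199 / 100) :
    19 / 10 ≤ y ^ 2 - x * z ∧ y ^ 2 - x * z ≤ 21 / 10 ∧ 29 / 10 ≤ z ^ 2 - y * w ∧
      z ^ 2 - y * w ≤ 31 / 10 ∧ |y * z - x * w| ≤ 11 / 10 := by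
  have e1 : 98 / 100 ≤ y ^ 2 := by nlinarith
  have e2 : y ^ 2 ≤ 103 / 100 := by nlinarith
  have e3 : x * z ≤ -98 / 100 := by nlinarith
  have e4 : -103 / 100 ≤ x * z := by nlinarith
  have e5 : 98 / 100 ≤ z ^ 2 := by nlinarith
  have e6 : z ^ 2 ≤ 103 / 100 := by nlinarith
  have e7 : y * w ≤ -197 / 100 := by nlinarith
  have e8 : -204 / 100 ≤ y * w := by nlinarith
  have e9 : y * z ≤ -98 / 100 := by nlinarith
  have e10 : -103 / 100 ≤ y * z := by nlinarith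
  have e11 : x * w ≤ -197 / 100 := by nlinarith
  have e12 : -204 / 100 ≤ x * w := by nlinarith
  refine ⟨by linarith, by linarith, by linarith, by linarith, ?_⟩
  rw [abs_le]
  constructor <;> linarith

theorem boxr (T : ℝ) (hT : 2 ≤ T) (F : ℤ × ℤ × ℤ × ℤ)
    (hF : F ∈ box 1 1 (-1) (-2) (1 / 100) T)
    (hs : Squarefree (dD F.1 F.2.1 F.2.2.1 F.2.2.2) ∧ dD F.1 F.2.1 F.2.2.1 F.2.2.2 % 4 = 3) :
    Nf (dD F.1 F.2.1 F.2.2.1 F.2.2.2).natAbs F.1 F.2.1 F.2.2.1 F.2.2.2 ∧ 0 < F.1 ∧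
      ((dD F.1 F.2.1 F.2.2.1 F.2.2.2).natAbs : ℝ) ≤ 27 * T ^ 4 := by
  obtain ⟨a, b, c, d⟩ := F
  simp only at hs ⊢
  unfold box at hF
  rw [Finset.mem_product, Finset.mem_product, Finset.mem_product] at hF
  obtain ⟨f1, f2, f3, f4⟩ := hF
  have hT0 : 0 < T := by linarith
  obtain ⟨x, hx, x1, x2⟩ := near _ _ _ hT0 f1
  obtain ⟨y, hy, y1, y2⟩ := near _ _ _ hT0 f2
  obtain ⟨z, hz, z1, z2⟩ := near _ _ _ hT0 f3
  obtain ⟨w, hw, w1, w2⟩ := near _ _ _ hT0 f4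
  simp only at hx hy hz hw
  obtain ⟨i1, i2, i3, i4, i5⟩ := ineq x y z w (by linarith) (by linarith) (by linarith)
    (by linarith) (by linarith) (by linarith) (by linarith) (by linarith)
  have P1 : ((Pc a b c : ℤ) : ℝ) = T ^ 2 * (y ^ 2 - x * z) := by
    unfold Pc; push_cast; rw [hx, hy, hz]; ring
  have R1 : ((Pc d c b : ℤ) : ℝ) = T ^ 2 * (z ^ 2 - y * w) := by
    unfold Pc; push_cast; rw [hw, hy, hz]; ring
  have Q1 : ((Qc a b c d : ℤ) : ℝ) = T ^ 2 * (y * z - x * w) := by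
    unfold Qc; push_cast; rw [hx, hy, hz, hw]; ring
  have hT2 : 4 ≤ T ^ 2 := by nlinarith
  have hT2p : 0 < T ^ 2 := by positivity
  have eD : dD a b c d = 4 * Pc a b c * Pc d c b - Qc a b c d ^ 2 := by
    unfold dD Pc Qc; ring
  have p2 : 2 ≤ Pc a b c := by
    have : (2 : ℝ) ≤ ((Pc a b c : ℤ) : ℝ) := by rw [P1]; nlinarith
    exact_mod_cast this
  have q1 : |Qc a b c d| < Pc a b c := by
    have : |((Qc a b c d : ℤ) : ℝ)| < ((Pc a b c : ℤ) : ℝ) := by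
      rw [Q1, P1, abs_mul, abs_of_pos hT2p]
      apply mul_lt_mul_of_pos_left _ hT2p
      linarith
    exact_mod_cast this
  have r1 : Pc a b c < Pc d c b := by
    have : ((Pc a b c : ℤ) : ℝ) < ((Pc d c b : ℤ) : ℝ) := by
      rw [P1, R1]
      apply mul_lt_mul_of_pos_left _ hT2p
      linarith
    exact_mod_cast this
  have ha : 0 < a := by
    have : (0 : ℝ) < (a : ℝ) := by
      rw [hx]
      apply mul_pos hT0
      linarith
    exact_mod_cast this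
  have hpos : 0 < dD a b c d := by
    rw [eD]
    have h1 := abs_lt.1 q1
    nlinarith
  have hnat : ((dD a b c d).natAbs : ℤ) = dD a b c d := Int.natAbs_of_nonneg hpos.le
  refine ⟨⟨⟨?_, ?_, ?_, by omega⟩, p2, q1, r1, ha.ne'⟩, ha, ?_⟩
  · rw [hnat, eD]
  · exact Int.squarefree_natAbs.2 hs.1
  · rw [← Int.not_even_iff_odd]
    intro hev
    obtain ⟨m, hm⟩ := hev
    have h1 := hs.2
    rw [eD, hm] at h1
    have h3 : 4 * Pc a b c * Pc d c b - (m + m) ^ 2 = 4 * (Pc a b c * Pc d c b - m ^ 2) := by ring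
    rw [h3] at h1
    omega
  · have h1 : ((dD a b c d).natAbs : ℝ) = ((dD a b c d : ℤ) : ℝ) := by
      rw [← hnat]; simp
    rw [h1, eD]
    push_cast
    rw [P1, R1]
    have h3 : 0 ≤ ((Qc a b c d : ℤ) : ℝ) ^ 2 := sq_nonneg _
    have h4 : 4 * (T ^ 2 * (y ^ 2 - x * z)) * (T ^ 2 * (z ^ 2 - y * w)) =
        4 * T ^ 4 * ((y ^ 2 - x * z) * (z ^ 2 - y * w)) := by ring
    rw [h4]
    have h5 : (y ^ 2 - x * z) * (z ^ 2 - y * w) ≤ 21 / 10 * (31 / 10) :=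
      mul_le_mul i2 i4 (by linarith) (by norm_num)
    have h6 : 0 ≤ T ^ 4 := by positivity
    nlinarith

end Pool.Agent.PPG
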