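import Pool.Agent.PPG.Frm

/-!
# PPG/Cls: the class of a strictly reduced cubic form has order 3
-/

set_option autoImplicit false

namespace Pool.Agent.PPG

open NumberField Pool.Agent.FTA Pool.Agent.FTB Pool.Agent.FTL nonZeroDivisors

theorem fd_ne (K : IntermediateField ℚ ℂ) [NumberField K] (h2 : Module.finrank ℚ K = 2)
    (him : ∃ x : K, (x : ℂ).im ≠ 0) (a b c d : ℤ) (hn : Nd (aD K) a b c d) (w w' : 𝓞 K)
    (I I' : Ideal (𝓞 K)) (h : FD K a b c d w w' I I') : I ≠ 0 ∧ I' ≠ 0 := by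
  have h1 := fd_nrm K h2 him a b c d hn w w' I I' h
  have h3 := hn.p0
  constructor
  · rintro rfl
    have h4 := h1.1
    rw [Ideal.zero_eq_bot, Ideal.absNorm_bot] at h4
    push_cast at h4
    omega
  · rintro rfl
    have h4 := h1.2
    rw [Ideal.zero_eq_bot, Ideal.absNorm_bot] at h4
    push_cast at h4
    omega

/-- the ideal as a non-zero-divisor -/
noncomputable def nz {O : Type*} [CommRing O] [IsDomain O] (I : Ideal O) (h : I ≠ 0) :
    (Ideal O)⁰ := ⟨I, mem_nonZeroDivisors_iff_ne_zero.2 h⟩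

theorem fc_iff (K : IntermediateField ℚ ℂ) [NumberField K] (a b c d : ℤ) (w w' : 𝓞 K)
    (I I' : Ideal (𝓞 K)) (h : FD K a b c d w w' I I') (hI : I ≠ 0) (A : ClassGroup (𝓞 K)) :
    FC K a b c d A ↔ ClassGroup.mk0 (nz I hI) = A := by
  have e : Ideal.span {((Pc a b c : ℤ) : 𝓞 K), w'} = I := by
    rw [h.hI]
    unfold Pc
    push_cast
    rfl
  constructor
  · rintro ⟨w1, J, hw1, hJ, hA⟩
    have e1 : w1 = w' := co_inj K _ _ _ _ hw1 h.hw'
    subst e1
    rw [← hA]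
    congr 1
    apply Subtype.ext
    show I = (J : Ideal (𝓞 K))
    rw [hJ, e]
  · intro hA
    exact ⟨w', nz I hI, h.hw', e.symm, hA⟩

theorem fc_ex (K : IntermediateField ℚ ℂ) [NumberField K] (h2 : Module.finrank ℚ K = 2)
    (him : ∃ x : K, (x : ℂ).im ≠ 0) (a b c d : ℤ) (hn : Nd (aD K) a b c d) :
    ∃ A, FC K a b c d A := by
  obtain ⟨w, w', I, I', h⟩ := fd_ex K h2 him a b c d hn
  have h1 := fd_ne K h2 him a b c d hn w w' I I' h
  exact ⟨_, (fc_iff K a b c d w w' I I' h h1.1 _).2 rfl⟩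

theorem fc_cube (K : IntermediateField ℚ ℂ) [NumberField K] (h2 : Module.finrank ℚ K = 2)
    (him : ∃ x : K, (x : ℂ).im ≠ 0) (a b c d : ℤ) (hn : Nd (aD K) a b c d)
    (A : ClassGroup (𝓞 K)) (hA : FC K a b c d A) : A ^ 3 = 1 := by
  obtain ⟨w, w', I, I', h⟩ := fd_ex K h2 him a b c d hn
  have h1 := fd_ne K h2 him a b c d hn w w' I I' h
  rw [fc_iff K a b c d w w' I I' h h1.1] at hA
  rw [← hA, ← map_pow, ClassGroup.mk0_eq_one_iff]
  exact ⟨_, h.cu⟩

/-- the conjugate ideal has the inverse class -/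
theorem fd_inv (K : IntermediateField ℚ ℂ) [NumberField K] (a b c d : ℤ) (w w' : 𝓞 K)
    (I I' : Ideal (𝓞 K)) (h : FD K a b c d w w' I I') (hI : I ≠ 0) (hI' : I' ≠ 0) :
    ClassGroup.mk0 (nz I' hI') = (ClassGroup.mk0 (nz I hI))⁻¹ := by
  apply eq_inv_of_mul_eq_one_left
  rw [← map_mul, ClassGroup.mk0_eq_one_iff]
  exact ⟨_, h.mm⟩

/-- the size of the discriminant -/
theorem nf_size (D : ℕ) (a b c d : ℤ) (hn : Nf D a b c d) : 4 * Pc a b c < D := by
  have h1 := hn.hD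
  have h3 := hn.p2
  have h4 := hn.q1
  have h5 := hn.r1
  rw [abs_lt] at h4
  nlinarith

theorem fc_ne_one (K : IntermediateField ℚ ℂ) [NumberField K] (h2 : Module.finrank ℚ K = 2)
    (him : ∃ x : K, (x : ℂ).im ≠ 0) (a b c d : ℤ) (hn : Nf (aD K) a b c d)
    (A : ClassGroup (𝓞 K)) (hA : FC K a b c d A) : A ≠ 1 := by
  obtain ⟨w, w', I, I', h⟩ := fd_ex K h2 him a b c d hn.toNd
  have h1 := fd_ne K h2 him a b c d hn.toNd w w' I I' h
  rw [fc_iff K a b c d w w' I I' h h1.1] at hA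
  rw [← hA]
  intro h3
  rw [ClassGroup.mk0_eq_one_iff] at h3
  obtain ⟨β, hβ⟩ := h3
  have hβ' : I = Ideal.span {β} := hβ
  obtain ⟨m, n, hmn⟩ := co_exists K h2 him β
  have h4 := co_norm K h2 him β m n hmn
  rw [← hβ', (fd_nrm K h2 him a b c d hn.toNd w w' I I' h).1] at h4
  have h5 := nf_size _ a b c d hn
  have hn0 : n = 0 := by
    by_contra hne
    have h6 : 1 ≤ n ^ 2 := by
      have := sq_pos_of_ne_zero hne
      omega
    nlinarith [sq_nonneg m]
  subst hn0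
  -- `w' ∈ (β)`
  have h7 : w' ∈ Ideal.span {β} := by
    rw [← hβ', h.hI]
    exact Ideal.subset_span (by simp)
  rw [Ideal.mem_span_singleton] at h7
  obtain ⟨γ, hγ⟩ := h7
  obtain ⟨s, r, hsr⟩ := co_exists K h2 him γ
  have h8 := h.hw'
  rw [hγ] at h8
  have h9 := (co_mul K β γ m 0 s r _ _ hmn hsr h8).2
  have h10 : m ^ 2 = 4 * Pc a b c := by rw [h4]; ring
  have h11 : m ∣ 2 := ⟨-r, by linarith⟩
  have h12 : m ^ 2 ∣ 4 := by
    have := pow_dvd_pow_of_dvd h11 2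
    norm_num at this
    exact this
  have h13 := Int.le_of_dvd (by norm_num) h12
  have := hn.p2
  omega

end Pool.Agent.PPG
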