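import Pool.Agent.PPG.Defs
import Pool.Agent.FTB.Cor
import Pool.Agent.FTL.LEl

/-!
# PPG/Wel: the elements `(Q ± √-D) / 2`
-/

set_option autoImplicit false

namespace Pool.Agent.PPG

open NumberField Pool.Agent.FTA Pool.Agent.FTB Pool.Agent.FTL nonZeroDivisors

theorem co_int (K : IntermediateField ℚ ℂ) [NumberField K] (z : ℤ) :
    Co K (z : 𝓞 K) (2 * z) 0 := by
  have hc : ((((z : ℤ) : 𝓞 K) : K) : ℂ) = (z : ℂ) := by simp
  unfold Co
  rw [hc]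
  push_cast
  ring

theorem co_add (K : IntermediateField ℚ ℂ) [NumberField K] (α β : 𝓞 K) (t y t' y' : ℤ)
    (h : Co K α t y) (h' : Co K β t' y') : Co K (α + β) (t + t') (y + y') := by
  unfold Co at *
  push_cast
  rw [mul_add, h, h']
  ring

theorem co_smul (K : IntermediateField ℚ ℂ) [NumberField K] (z : ℤ) (α : 𝓞 K) (t y : ℤ)
    (h : Co K α t y) : Co K ((z : 𝓞 K) * α) (z * t) (z * y) := by
  have hc : ((((z : ℤ) : 𝓞 K) : K) : ℂ) = (z : ℂ) := by simp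
  unfold Co at *
  push_cast at hc ⊢
  rw [hc, ← mul_assoc, mul_comm (2 : ℂ), mul_assoc, h]
  ring

theorem co_sum (K : IntermediateField ℚ ℂ) [NumberField K] (α β : 𝓞 K) (t y : ℤ)
    (ha : Co K α t y) (hb : Co K β t (-y)) : α + β = (t : 𝓞 K) := by
  have h1 := co_add K α β _ _ _ _ ha hb
  have h2 := co_int K t
  apply co_inj K _ _ _ _ h1
  rw [show t + t = 2 * t by ring, show y + -y = 0 by ring]
  exact h2

theorem wel (K : IntermediateField ℚ ℂ) [NumberField K] (h2 : Module.finrank ℚ K = 2)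
    (him : ∃ x : K, (x : ℂ).im ≠ 0) (P Q R : ℤ) (h : (aD K : ℤ) = 4 * P * R - Q ^ 2) :
    ∃ w w' : 𝓞 K, Co K w Q 1 ∧ Co K w' Q (-1) ∧ w + w' = (Q : 𝓞 K) ∧
      w * w' = (P : 𝓞 K) * (R : 𝓞 K) := by
  obtain ⟨w, hw⟩ := elt K h2 him Q 1 (P * R) (by rw [h]; ring)
  obtain ⟨w', hw', hm⟩ := co_conj K h2 him w Q 1 hw
  refine ⟨w, w', hw, hw', co_sum K w w' Q 1 hw hw', ?_⟩
  have h3 := co_norm K h2 him w Q 1 hw
  have h4 : (Ideal.absNorm (Ideal.span {w}) : ℤ) = P * R := by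
    have : 4 * (Ideal.absNorm (Ideal.span {w}) : ℤ) = 4 * (P * R) := by rw [h3, h]; ring
    omega
  rw [hm]
  have h5 : ((Ideal.absNorm (Ideal.span {w}) : ℕ) : 𝓞 K) =
      (((Ideal.absNorm (Ideal.span {w}) : ℕ) : ℤ) : 𝓞 K) := by push_cast; rfl
  rw [h5, h4]
  push_cast
  rfl

end Pool.Agent.PPG
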