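import Pool.Agent.PPG.Alg
import Pool.Agent.PPG.AlgB
import Pool.Agent.PPG.Wel
import Pool.Agent.FTB.CMn

/-!
# PPG/Frm: the class of a cubic form
-/

set_option autoImplicit false

namespace Pool.Agent.PPG

open NumberField Pool.Agent.FTA Pool.Agent.FTB Pool.Agent.FTL nonZeroDivisors

/-- Bezout for the content of the Hessian -/
theorem bez (D : ℕ) (a b c d : ℤ) (h : Nd D a b c d) :
    ∃ u v t : ℤ, u * Pc a b c + v * Qc a b c d + t * Pc d c b = 1 := by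
  obtain ⟨hD, hs, -, -⟩ := h
  set P := Pc a b c
  set Q := Qc a b c d
  set R := Pc d c b
  obtain ⟨g, hg⟩ : ∃ g : ℤ, g = ((Int.gcd P Q : ℕ) : ℤ) := ⟨_, rfl⟩
  obtain ⟨e, he⟩ : ∃ e : ℤ, e = ((Int.gcd g R : ℕ) : ℤ) := ⟨_, rfl⟩
  have h1 : e ∣ g := by rw [he]; exact Int.gcd_dvd_left ..
  have h2 : e ∣ R := by rw [he]; exact Int.gcd_dvd_right ..
  have h3 : e ∣ P := h1.trans (by rw [hg]; exact Int.gcd_dvd_left ..)
  have h4 : e ∣ Q := h1.trans (by rw [hg]; exact Int.gcd_dvd_right ..)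
  have h5 : e * e ∣ (D : ℤ) := by
    rw [hD]
    apply dvd_sub
    · rw [mul_assoc]
      exact Dvd.dvd.mul_left (mul_dvd_mul h3 h2) 4
    · rw [pow_two]
      exact mul_dvd_mul h4 h4
  have h6 : e = 1 := by
    rw [he] at h5 ⊢
    have h7 : Int.gcd g R * Int.gcd g R ∣ D := by exact_mod_cast h5
    have h8 := hs _ h7
    rw [Nat.isUnit_iff] at h8
    rw [h8]
    rfl
  have h9 := Int.gcd_eq_gcd_ab g R
  have h10 := Int.gcd_eq_gcd_ab P Q
  rw [← he, h6] at h9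
  rw [← hg] at h10
  refine ⟨Int.gcdA P Q * Int.gcdA g R, Int.gcdB P Q * Int.gcdA g R, Int.gcdB g R, ?_⟩
  linear_combination (-(Int.gcdA g R)) * h10 - h9

/-- the data attached to a form -/
structure FD (K : IntermediateField ℚ ℂ) [NumberField K] (a b c d : ℤ) (w w' : 𝓞 K)
    (I I' : Ideal (𝓞 K)) : Prop where
  hw : Co K w (Qc a b c d) 1
  hw' : Co K w' (Qc a b c d) (-1)
  hs : w + w' = (b : 𝓞 K) * c - a * d
  hm : w * w' = ((b : 𝓞 K) ^ 2 - a * c) * ((c : 𝓞 K) ^ 2 - b * d)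
  hI : I = Ideal.span {(b : 𝓞 K) ^ 2 - a * c, w'}
  hI' : I' = Ideal.span {(b : 𝓞 K) ^ 2 - a * c, w}
  mm : I' * I = Ideal.span {(b : 𝓞 K) ^ 2 - a * c}
  cu : I ^ 3 = Ideal.span {(b : 𝓞 K) * ((b : 𝓞 K) ^ 2 - a * c) - a * w'}

theorem fd_ex (K : IntermediateField ℚ ℂ) [NumberField K] (h2 : Module.finrank ℚ K = 2)
    (him : ∃ x : K, (x : ℂ).im ≠ 0) (a b c d : ℤ) (h : Nd (aD K) a b c d) :
    ∃ (w w' : 𝓞 K) (I I' : Ideal (𝓞 K)), FD K a b c d w w' I I' := by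
  obtain ⟨w, w', hw, hw', hs, hm⟩ := wel K h2 him _ _ _ h.hD
  obtain ⟨u, v, t, hb⟩ := bez _ a b c d h
  have hs1 : w + w' = (b : 𝓞 K) * c - a * d := by
    rw [hs]
    unfold Qc
    push_cast
    ring
  have hm1 : w * w' = ((b : 𝓞 K) ^ 2 - a * c) * ((c : 𝓞 K) ^ 2 - b * d) := by
    rw [hm]
    unfold Pc
    push_cast
    ring
  have hb1 : (u : 𝓞 K) * ((b : 𝓞 K) ^ 2 - a * c) + v * ((b : 𝓞 K) * c - a * d) +
      t * ((c : 𝓞 K) ^ 2 - b * d) = 1 := by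
    have h3 := congrArg (fun z : ℤ => (z : 𝓞 K)) hb
    unfold Pc Qc at h3
    push_cast at h3
    rw [← h3]
    ring
  exact ⟨w, w', _, _, hw, hw', hs1, hm1, rfl, rfl, alg_mul _ _ _ w w' _ _ _ hs1 hm1 hb1,
    alg_cube (a : 𝓞 K) b c d w w' u v t hs1 hm1 hb1⟩

/-- the coordinates of the generator of the cube -/
theorem fd_co (K : IntermediateField ℚ ℂ) [NumberField K] (a b c d : ℤ) (w w' : 𝓞 K)
    (I I' : Ideal (𝓞 K)) (h : FD K a b c d w w' I I') :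
    Co K ((b : 𝓞 K) * ((b : 𝓞 K) ^ 2 - a * c) - a * w')
      (2 * b * Pc a b c - a * Qc a b c d) a := by
  have h1 := co_smul K (-a) w' _ _ h.hw'
  have h3 := co_int K (b * Pc a b c)
  have h4 := co_add K _ _ _ _ _ _ h3 h1
  have e1 : ((b * Pc a b c : ℤ) : 𝓞 K) + ((-a : ℤ) : 𝓞 K) * w' =
      (b : 𝓞 K) * ((b : 𝓞 K) ^ 2 - a * c) - a * w' := by
    unfold Pc
    push_cast
    ring
  rw [e1] at h4
  convert h4 using 1 <;> ring

theorem syz (a b c d : ℤ) :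
    (2 * b * Pc a b c - a * Qc a b c d) ^ 2 +
      (4 * Pc a b c * Pc d c b - Qc a b c d ^ 2) * a ^ 2 = 4 * Pc a b c ^ 3 := by
  unfold Pc Qc
  ring

theorem fd_nrm (K : IntermediateField ℚ ℂ) [NumberField K] (h2 : Module.finrank ℚ K = 2)
    (him : ∃ x : K, (x : ℂ).im ≠ 0) (a b c d : ℤ) (hn : Nd (aD K) a b c d) (w w' : 𝓞 K)
    (I I' : Ideal (𝓞 K)) (h : FD K a b c d w w' I I') :
    (Ideal.absNorm I : ℤ) = Pc a b c ∧ (Ideal.absNorm I' : ℤ) = Pc a b c := by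
  have h1 := co_norm K h2 him _ _ _ (fd_co K a b c d w w' I I' h)
  rw [← h.cu, hn.hD, syz, map_pow] at h1
  have h3 : (Ideal.absNorm I : ℤ) = Pc a b c := by
    have h4 : ((Ideal.absNorm I : ℕ) : ℤ) ^ 3 = Pc a b c ^ 3 := by
      push_cast at h1
      linarith
    exact (Odd.strictMono_pow (by decide : Odd 3)).injective h4
  refine ⟨h3, ?_⟩
  have h5 := congrArg Ideal.absNorm h.mm
  have e : (b : 𝓞 K) ^ 2 - a * c = (((Pc a b c).toNat : ℕ) : 𝓞 K) := by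
    have h6 : (((Pc a b c).toNat : ℕ) : ℤ) = Pc a b c := Int.toNat_of_nonneg hn.p0.le
    have h7 : (((Pc a b c).toNat : ℕ) : 𝓞 K) = (((((Pc a b c).toNat : ℕ) : ℤ)) : 𝓞 K) := by
      push_cast; rfl
    rw [h7, h6]
    unfold Pc
    push_cast
    ring
  rw [e, nrm_nat K h2, map_mul] at h5
  have h8 : (Ideal.absNorm I' : ℤ) * (Ideal.absNorm I : ℤ) = Pc a b c ^ 2 := by
    have h9 := congrArg (fun n : ℕ => (n : ℤ)) h5
    push_cast at h9
    rw [h9]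
    rw [Int.toNat_of_nonneg hn.p0.le]
  rw [h3] at h8
  have h10 : (Ideal.absNorm I' : ℤ) * Pc a b c = Pc a b c * Pc a b c := by rw [h8]; ring
  exact mul_right_cancel₀ hn.p0.ne' h10

end Pool.Agent.PPG
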