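import Pool.Agent.FTA.Fam
import Pool.Agent.FTL.LFd
import Pool.Agent.PPG.Fib
import Pool.Agent.PPG.BoxR

/-!
# PPG/Mom: the first moment of `|Cl(K)[3]| - 1` is at least `c X`
-/

set_option autoImplicit false

namespace Pool.Agent.PPG

open NumberField Pool.Agent.FTA Pool.Agent.FTB Pool.Agent.FTL Pool.Agent.PPB nonZeroDivisors

/-- the field of discriminant `-D`, `D` squarefree, `D ≡ 3` modulo 4 -/
theorem kf_disc (D : ℕ) (hs : Squarefree D) (h4 : D % 4 = 3) :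
    ∃ _ : NumberField (Kf D), Module.finrank ℚ (Kf D) = 2 ∧ (∃ x : Kf D, (x : ℂ).im ≠ 0) ∧
      aD (Kf D) = D := by
  have hD : 1 ≤ D := Nat.pos_of_ne_zero hs.ne_zero
  obtain ⟨⟨hn, h2⟩, him, hc, hc1, -⟩ := fld D hD (Or.inr h4)
  refine ⟨hn, h2, him, ?_⟩
  have h1 : cf D * cf D ∣ D := ⟨aD (Kf D), by rw [← pow_two]; exact hc⟩
  have h3 := hs _ h1
  rw [Nat.isUnit_iff] at h3
  rw [h3] at hc
  omega

theorem nb_ex (B : Finset (ℤ × ℤ × ℤ × ℤ)) (P : ℤ → ℤ → ℤ → ℤ → Prop) (x : ℝ)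
    (h : x ≤ nb B P) : ∃ S : Finset (ℤ × ℤ × ℤ × ℤ),
      (∀ F ∈ S, F ∈ B ∧ P F.1 F.2.1 F.2.2.1 F.2.2.2) ∧ x ≤ (S.card : ℝ) := by
  classical
  unfold nb at h
  refine ⟨B.filter (fun F => P F.1 F.2.1 F.2.2.1 F.2.2.2), fun F hF => ?_, ?_⟩
  · rw [Finset.mem_filter] at hF
    exact hF
  · convert h

theorem mom : ∃ c : ℝ, 0 < c ∧ ∃ X0 : ℝ, ∀ X : ℝ, X0 ≤ X →
    c * X ≤ ∑ᶠ K ∈ IQ ⌊X⌋₊, ((Nat.card {c : ClassGroup (𝓞 K) // c ^ 3 = 1} : ℝ) - 1) := by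
  classical
  obtain ⟨c, hc, T0, hT0⟩ := finB 1 1 (-1) (-2) (1 / 100) one_ne_zero
    (by unfold hA; norm_num) (by unfold dD; norm_num) (by norm_num)
  refine ⟨c / 27, by positivity, max 1 (27 * (max T0 2) ^ 4), fun X hX => ?_⟩
  have hX1 : 1 ≤ X := (le_max_left _ _).trans hX
  have hX2 : 27 * (max T0 2) ^ 4 ≤ X := (le_max_right _ _).trans hX
  have hX0 : 0 < X := by linarith
  obtain ⟨T, hTd⟩ : ∃ T : ℝ, T = (X / 27) ^ ((1 : ℝ) / 4) := ⟨_, rfl⟩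
  have hT4 : T ^ 4 = X / 27 := by
    rw [hTd, ← Real.rpow_natCast, ← Real.rpow_mul (by positivity)]
    norm_num
  have hTp : 0 < T := by rw [hTd]; positivity
  have hTm : max T0 2 ≤ T := by
    by_contra hlt
    have hlt' := not_le.1 hlt
    have h1 : T ^ 4 < (max T0 2) ^ 4 := pow_lt_pow_left₀ hlt' hTp.le (by norm_num)
    rw [hT4] at h1
    linarith
  have hTT : T0 ≤ T := (le_max_left _ _).trans hTm
  have hT2 : 2 ≤ T := (le_max_right _ _).trans hTm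
  have hnb := hT0 T hTT
  obtain ⟨S, hSm, hSc⟩ := nb_ex _ _ _ hnb
  have hmem : ∀ F ∈ S, Nf (dD F.1 F.2.1 F.2.2.1 F.2.2.2).natAbs F.1 F.2.1 F.2.2.1 F.2.2.2 ∧
      0 < F.1 ∧ ((dD F.1 F.2.1 F.2.2.1 F.2.2.2).natAbs : ℝ) ≤ 27 * T ^ 4 ∧
      (dD F.1 F.2.1 F.2.2.1 F.2.2.2).natAbs % 4 = 3 := by
    intro F hF
    obtain ⟨hF1, hF2⟩ := hSm F hF
    have h1 := boxr T hT2 F hF1 hF2
    refine ⟨h1.1, h1.2.1, h1.2.2, ?_⟩
    have h3 := hF2.2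
    have h4 := h1.1.hD
    have h10 : dD F.1 F.2.1 F.2.2.1 F.2.2.2 = 4 * Pc F.1 F.2.1 F.2.2.1 *
        Pc F.2.2.2 F.2.2.1 F.2.1 - Qc F.1 F.2.1 F.2.2.1 F.2.2.2 ^ 2 := by
      unfold dD Pc Qc; ring
    rw [← h10] at h4
    omega
  have hmap : ∀ F ∈ S, Kf (dD F.1 F.2.1 F.2.2.1 F.2.2.2).natAbs ∈ (famFin ⌊X⌋₊).toFinset := by
    intro F hF
    obtain ⟨h1, h3, h5, h7⟩ := hmem F hF
    obtain ⟨hn, h2, him, hd⟩ := kf_disc _ h1.sf h7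
    rw [Set.Finite.mem_toFinset]
    refine ⟨hn, h2, him, ?_⟩
    rw [hd]
    apply Nat.le_floor
    rw [hT4] at h5
    linarith
  have hcard := Finset.card_eq_sum_card_fiberwise hmap
  have hfib : ∀ K ∈ (famFin ⌊X⌋₊).toFinset,
      ((S.filter (fun F => Kf (dD F.1 F.2.1 F.2.2.1 F.2.2.2).natAbs = K)).card : ℝ) ≤
      (Nat.card {c : ClassGroup (𝓞 K) // c ^ 3 = 1} : ℝ) - 1 := by
    intro K hK
    rw [Set.Finite.mem_toFinset] at hK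
    obtain ⟨hn, h2, him, -⟩ := hK
    apply kfib K h2 him
    intro F hF
    rw [Finset.mem_filter] at hF
    obtain ⟨hF1, hF2⟩ := hF
    obtain ⟨h1, h3, h5, h7⟩ := hmem F hF1
    obtain ⟨hn', h2', him', hd⟩ := kf_disc _ h1.sf h7
    subst hF2
    refine ⟨?_, h3⟩
    rw [hd]
    exact h1
  rw [finsum_mem_eq_finite_toFinset_sum _ (famFin _)]
  have h9 : (S.card : ℝ) ≤ ∑ K ∈ (famFin ⌊X⌋₊).toFinset,
      ((Nat.card {c : ClassGroup (𝓞 K) // c ^ 3 = 1} : ℝ) - 1) := by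
    rw [hcard]
    push_cast
    exact Finset.sum_le_sum hfib
  have h10 : c / 27 * X = c * (X / 27) := by ring
  rw [h10, ← hT4]
  exact hSc.trans h9

end Pool.Agent.PPG
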