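import Pool.Agent.PPG.Mom

/-!
# PPG/Pos: a positive proportion of the imaginary quadratic fields has class number divisible by 3

Cauchy-Schwarz: the second moment of `|Cl(K)[3]|` is `≤ C X` (hypothesis), the first moment of
`|Cl(K)[3]| - 1` is `≥ c X` (`mom`).
-/

set_option autoImplicit false

namespace Pool.Agent.PPG

open NumberField Pool.Agent.FTA nonZeroDivisors

private theorem one_le (n : ℕ) (K : IntermediateField ℚ ℂ) (hK : K ∈ IQ n) :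
    (1 : ℝ) ≤ (Nat.card {c : ClassGroup (𝓞 K) // c ^ 3 = 1} : ℝ) := by
  obtain ⟨hN, _⟩ := hK
  have h1 : 0 < Nat.card {c : ClassGroup (𝓞 K) // c ^ 3 = 1} := by
    have : Nonempty {c : ClassGroup (𝓞 K) // c ^ 3 = 1} := ⟨⟨1, one_pow 3⟩⟩
    exact Nat.card_pos
  exact_mod_cast h1

private theorem triv (n : ℕ) (K : IntermediateField ℚ ℂ) (hK : K ∈ IQ n)
    (h3 : ¬ 3 ∣ Nat.card (ClassGroup (𝓞 K))) :
    (Nat.card {c : ClassGroup (𝓞 K) // c ^ 3 = 1} : ℝ) = 1 := by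
  obtain ⟨hN, _⟩ := hK
  have h1 : Nat.card {c : ClassGroup (𝓞 K) // c ^ 3 = 1} = 1 := by
    rw [Nat.card_eq_one_iff_unique]
    refine ⟨⟨?_⟩, ⟨⟨1, one_pow 3⟩⟩⟩
    have key : ∀ c : ClassGroup (𝓞 K), c ^ 3 = 1 → c = 1 := by
      intro c hc
      by_contra hne
      apply h3
      have : Fact (Nat.Prime 3) := ⟨Nat.prime_three⟩
      rw [← orderOf_eq_prime hc hne]
      exact orderOf_dvd_natCard c
    rintro ⟨c, hc⟩ ⟨d, hd⟩
    exact Subtype.ext ((key c hc).trans (key d hd).symm)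
  rw [h1]
  norm_num

theorem pos
    (h2 : ∃ C : ℝ, 0 < C ∧ ∀ X : ℝ, 1 ≤ X →
      ∑ᶠ K ∈ IQ ⌊X⌋₊, (Nat.card {c : ClassGroup (𝓞 K) // c ^ 3 = 1} : ℝ) ^ 2 ≤ C * X) :
    ∃ c : ℝ, 0 < c ∧ ∃ X0 : ℝ, ∀ X : ℝ, X0 ≤ X →
      c * X ≤ (({K ∈ IQ ⌊X⌋₊ | 3 ∣ Nat.card (ClassGroup (𝓞 K))}).ncard : ℝ) := by
  classical
  obtain ⟨c, hc, X0, hX0⟩ := mom
  obtain ⟨C, hC0, hC⟩ := h2
  refine ⟨c ^ 2 / C, by positivity, max X0 1, fun X hX => ?_⟩
  have hXa : X0 ≤ X := (le_max_left _ _).trans hX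
  have hXb : 1 ≤ X := (le_max_right _ _).trans hX
  have hXp : 0 < X := by linarith
  have m1 := hX0 X hXa
  have m2 := hC X hXb
  rw [finsum_mem_eq_finite_toFinset_sum _ (famFin _)] at m1 m2
  set F : Finset (IntermediateField ℚ ℂ) := (famFin ⌊X⌋₊).toFinset with hF
  set f : IntermediateField ℚ ℂ → ℝ := fun K =>
    (Nat.card {c : ClassGroup (𝓞 K) // c ^ 3 = 1} : ℝ) with hf
  have hmem : ∀ K, K ∈ F ↔ K ∈ IQ ⌊X⌋₊ := by
    intro K
    rw [hF, Set.Finite.mem_toFinset]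
  set B : Finset (IntermediateField ℚ ℂ) := F.filter (fun K => 3 ∣ Nat.card (ClassGroup (𝓞 K)))
    with hB
  have hcard : ({K ∈ IQ ⌊X⌋₊ | 3 ∣ Nat.card (ClassGroup (𝓞 K))}).ncard = B.card := by
    rw [← Set.ncard_coe_finset]
    congr 1
    ext K
    rw [hB, Finset.coe_filter, Set.mem_ofPred_eq, Set.mem_ofPred_eq, hmem]
  rw [hcard]
  have s1 : ∑ K ∈ F, (f K - 1) = ∑ K ∈ B, (f K - 1) := by
    symm
    apply Finset.sum_subset (Finset.filter_subset _ _)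
    intro K hK hK'
    have h3 : ¬ 3 ∣ Nat.card (ClassGroup (𝓞 K)) := by
      intro h
      exact hK' (Finset.mem_filter.mpr ⟨hK, h⟩)
    have h4 := triv _ K ((hmem K).mp hK) h3
    change (Nat.card {c : ClassGroup (𝓞 K) // c ^ 3 = 1} : ℝ) - 1 = 0
    rw [h4]
    ring
  have s2 : (∑ K ∈ B, (f K - 1)) ^ 2 ≤ (B.card : ℝ) * ∑ K ∈ B, (f K - 1) ^ 2 :=
    sq_sum_le_card_mul_sum_sq
  have s3 : ∑ K ∈ B, (f K - 1) ^ 2 ≤ ∑ K ∈ F, f K ^ 2 := by
    calc ∑ K ∈ B, (f K - 1) ^ 2 ≤ ∑ K ∈ B, f K ^ 2 := by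
          apply Finset.sum_le_sum
          intro K hK
          have h1 : (1 : ℝ) ≤ f K := one_le _ K ((hmem K).mp (Finset.mem_filter.mp hK).1)
          nlinarith
      _ ≤ ∑ K ∈ F, f K ^ 2 :=
          Finset.sum_le_sum_of_subset_of_nonneg (Finset.filter_subset _ _)
            (fun K _ _ => sq_nonneg _)
  have m1' : c * X ≤ ∑ K ∈ B, (f K - 1) := by
    rw [← s1]
    exact m1
  have t1 : (c * X) ^ 2 ≤ (B.card : ℝ) * (C * X) := by
    calc (c * X) ^ 2 ≤ (∑ K ∈ B, (f K - 1)) ^ 2 :=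
          pow_le_pow_left₀ (by positivity) m1' 2
      _ ≤ (B.card : ℝ) * ∑ K ∈ B, (f K - 1) ^ 2 := s2
      _ ≤ (B.card : ℝ) * (C * X) :=
          mul_le_mul_of_nonneg_left (s3.trans m2) (Nat.cast_nonneg _)
  have t5 : 0 < C * X := by positivity
  have t6 : c ^ 2 / C * X * (C * X) ≤ (B.card : ℝ) * (C * X) := by
    have : c ^ 2 / C * X * (C * X) = (c * X) ^ 2 := by
      field_simp
    rw [this]
    exact t1
  exact le_of_mul_le_mul_right t6 t5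

end Pool.Agent.PPG
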