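import Pool.Agent.PPG.Val

/-!
# PPG/Unq: a strictly reduced cubic form is determined up to the sign by its class
-/

set_option autoImplicit false

namespace Pool.Agent.PPG

open NumberField Pool.Agent.FTA Pool.Agent.FTB Pool.Agent.FTL nonZeroDivisors

/-- an integer with second coordinate `0` is a rational integer -/
theorem co_zero (K : IntermediateField ℚ ℂ) [NumberField K]
    (h2 : Module.finrank ℚ K = 2) (him : ∃ x : K, (x : ℂ).im ≠ 0) (a : 𝓞 K) (t : ℤ)
    (h : Co K a t 0) : ∃ s : ℤ, t = 2 * s ∧ a = (s : 𝓞 K) := by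
  have h3 := co_norm K h2 him _ _ _ h
  have h4 : (2 : ℤ) ∣ t := by
    have h5 : (2 : ℤ) ∣ t ^ 2 := ⟨2 * (Ideal.absNorm (Ideal.span {a}) : ℤ), by linarith⟩
    exact Int.prime_two.dvd_of_dvd_pow h5
  obtain ⟨s, rfl⟩ := h4
  exact ⟨s, rfl, co_inj K _ _ _ _ h (co_int K s)⟩

/-- the ideal `(P, w)` is the lattice with the basis `P, w`; `e = ± 1` -/
theorem lat_mem (K : IntermediateField ℚ ℂ) [NumberField K]
    (h2 : Module.finrank ℚ K = 2) (him : ∃ x : K, (x : ℂ).im ≠ 0) (P Q R e : ℤ) (he : e ^ 2 = 1)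
    (w w' : 𝓞 K) (hw : Co K w Q e) (hs : w + w' = (Q : 𝓞 K))
    (hm : w * w' = (P : 𝓞 K) * (R : 𝓞 K)) (z : 𝓞 K)
    (hz : z ∈ Ideal.span {(P : 𝓞 K), w}) : ∃ x y : ℤ, z = (x : 𝓞 K) * P + y * w := by
  have hel : ∀ α : 𝓞 K, ∃ m n : ℤ, α = (m : 𝓞 K) + n * w := by
    intro α
    obtain ⟨t, n, ht⟩ := co_exists K h2 him α
    have h1 := co_add K _ _ _ _ _ _ ht (co_smul K (-(e * n)) w _ _ hw)
    have h3 : n + -(e * n) * e = 0 := by
      have : n + -(e * n) * e = n * (1 - e ^ 2) := by ring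
      rw [this, he]; ring
    rw [h3] at h1
    obtain ⟨m, -, hm1⟩ := co_zero K h2 him _ _ h1
    refine ⟨m, e * n, ?_⟩
    rw [← hm1]
    push_cast
    ring
  rw [Ideal.mem_span_pair] at hz
  obtain ⟨α, β, rfl⟩ := hz
  obtain ⟨m, n, rfl⟩ := hel α
  obtain ⟨m', n', rfl⟩ := hel β
  have hw2 : w * w = (Q : 𝓞 K) * w - P * R := by
    have : w' = Q - w := by rw [← hs]; ring
    rw [← hm, this]
    ring
  refine ⟨m - n' * R, n * P + m' + n' * Q, ?_⟩
  push_cast
  linear_combination (n' : 𝓞 K) * hw2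

/-- the values of a strictly reduced form -/
theorem red_val (P Q R x y : ℤ) (h1 : |Q| < P) (h2 : P < R) (hy : y ≠ 0) :
    R ≤ P * x ^ 2 + Q * x * y + R * y ^ 2 := by
  have hy1 : 1 ≤ |y| := Int.one_le_abs hy
  have hQ : -(P * (|x| * |y|)) ≤ Q * x * y := by
    have h3 : |Q * x * y| ≤ P * (|x| * |y|) := by
      rw [abs_mul, abs_mul, mul_assoc]
      exact mul_le_mul_of_nonneg_right h1.le (by positivity)
    have := neg_abs_le (Q * x * y)
    linarith
  rw [← sq_abs x, ← sq_abs y]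
  have hP : 0 < P := lt_of_le_of_lt (abs_nonneg _) h1
  have hx0 : 0 ≤ |x| := abs_nonneg x
  generalize |x| = X at *
  generalize |y| = Y at *
  rcases le_or_gt Y X with h | h
  · have h4 : 0 ≤ P * X * (X - Y) := by
      apply mul_nonneg (mul_nonneg hP.le hx0)
      linarith
    have h5 : R ≤ R * Y ^ 2 := by
      have h6 : 1 ≤ Y ^ 2 := by nlinarith
      have h7 : 0 < R := by linarith
      nlinarith
    nlinarith
  · have h6 : X + 1 ≤ Y := h
    -- `P X² - P X Y + R Y² ≥ R`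
    have h7 : P * (X * Y) ≤ R * (X * Y) := mul_le_mul_of_nonneg_right h2.le (by positivity)
    have h8 : 1 ≤ Y ^ 2 - X * Y := by nlinarith
    have h9 : R ≤ R * (Y ^ 2 - X * Y) := by nlinarith
    have h10 : 0 ≤ P * X ^ 2 := by positivity
    nlinarith

/-- units -/
theorem co_unit (K : IntermediateField ℚ ℂ) [NumberField K]
    (h2 : Module.finrank ℚ K = 2) (him : ∃ x : K, (x : ℂ).im ≠ 0) (hD : 4 < aD K) (u : 𝓞 K)
    (hu : IsUnit u) : u = 1 ∨ u = -1 := by
  obtain ⟨s, r, hsr⟩ := co_exists K h2 him u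
  have h1 := co_norm K h2 him u s r hsr
  rw [Ideal.span_singleton_eq_top.2 hu, Ideal.absNorm_top] at h1
  have hr : r = 0 := by
    by_contra hne
    have h3 := sq_pos_of_ne_zero hne
    have h4 : (4 : ℤ) < aD K := by exact_mod_cast hD
    have h5 : (aD K : ℤ) * 1 ≤ aD K * r ^ 2 :=
      mul_le_mul_of_nonneg_left (by omega) (by positivity)
    push_cast at h1
    nlinarith [sq_nonneg s]
  subst hr
  obtain ⟨k, hk, rfl⟩ := co_zero K h2 him u s hsr
  have h5 : k ^ 2 = 1 := by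
    rw [hk] at h1
    push_cast at h1
    nlinarith
  rcases sq_eq_one_iff.1 h5 with h | h
  · left; rw [h]; simp
  · right; rw [h]; simp

end Pool.Agent.PPG
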