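import Pool.Agent.PPG.Cls

/-!
# PPG/Val: the ideals attached to the values of a cubic form
-/

set_option autoImplicit false

namespace Pool.Agent.PPG

open NumberField Pool.Agent.FTA Pool.Agent.FTB Pool.Agent.FTL nonZeroDivisors

theorem co_dvd (K : IntermediateField ℚ ℂ) [NumberField K] (h2 : Module.finrank ℚ K = 2)
    (him : ∃ x : K, (x : ℂ).im ≠ 0) (α : 𝓞 K) (t y : ℤ) (n : ℕ) (h : Co K α t y)
    (hd : (n : 𝓞 K) ∣ α) : (n : ℤ) ∣ y := by
  obtain ⟨γ, rfl⟩ := hd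
  obtain ⟨s, r, hsr⟩ := co_exists K h2 him γ
  have h1 := co_nat K γ s r n hsr
  have h3 := co_unique K _ _ _ _ _ h h1
  exact ⟨r, h3.2⟩

theorem fc_val (K : IntermediateField ℚ ℂ) [NumberField K] (h2 : Module.finrank ℚ K = 2)
    (him : ∃ x : K, (x : ℂ).im ≠ 0) (a b c d : ℤ) (hn : Nd (aD K) a b c d)
    (A : ClassGroup (𝓞 K)) (hA : FC K a b c d A) (x y : ℤ) (hxy : IsCoprime x y) :
    ∃ (J : (Ideal (𝓞 K))⁰) (α : 𝓞 K), ClassGroup.mk0 J = A ∧
      (Ideal.absNorm (J : Ideal (𝓞 K)) : ℤ) = Hv a b c d x y ∧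
      (J : Ideal (𝓞 K)) ^ 3 = Ideal.span {α} ∧ Co K α (Gv a b c d x y) (Fv a b c d x y) ∧
      ∀ n : ℕ, 2 ≤ n → ¬ ((J : Ideal (𝓞 K)) ≤ Ideal.span {(n : 𝓞 K)}) := by
  obtain ⟨w, w', I, I', h⟩ := fd_ex K h2 him a b c d hn
  obtain ⟨hI, hI'⟩ := fd_ne K h2 him a b c d hn w w' I I' h
  rw [fc_iff K a b c d w w' I I' h hI] at hA
  have hnrm := fd_nrm K h2 him a b c d hn w w' I I' h
  obtain ⟨P, hP⟩ : ∃ P : 𝓞 K, P = (b : 𝓞 K) ^ 2 - a * c := ⟨_, rfl⟩
  obtain ⟨R, hR⟩ : ∃ R : 𝓞 K, R = (c : 𝓞 K) ^ 2 - b * d := ⟨_, rfl⟩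
  have hPc : ((Pc a b c : ℤ) : 𝓞 K) = P := by rw [hP]; unfold Pc; push_cast; ring
  have hRc : ((Pc d c b : ℤ) : 𝓞 K) = R := by rw [hR]; unfold Pc; push_cast; ring
  have hp0 := hn.p0
  have hP0 : P ≠ 0 := by
    rw [← hPc]
    exact_mod_cast hp0.ne'
  have hmm := h.mm
  have hI'' := h.hI'
  have hIe := h.hI
  have hm := h.hm
  have hcu := h.cu
  rw [← hP] at hmm hI'' hIe hm hcu
  rw [← hR] at hm
  -- the element `ξ`
  obtain ⟨ξ, hξ⟩ : ∃ ξ : 𝓞 K, ξ = (x : 𝓞 K) * P + y * w := ⟨_, rfl⟩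
  have hmem : ξ ∈ I' := by
    rw [hI'', hξ, Ideal.mem_span_pair]
    exact ⟨_, _, rfl⟩
  have hξc : Co K ξ (2 * (x * Pc a b c) + y * Qc a b c d) y := by
    have h1 := co_add K _ _ _ _ _ _ (co_int K (x * Pc a b c)) (co_smul K y w _ _ h.hw)
    have e : ((x * Pc a b c : ℤ) : 𝓞 K) + (y : 𝓞 K) * w = ξ := by
      rw [hξ, ← hPc]; push_cast; ring
    rw [e] at h1
    convert h1 using 1
    ring
  have hxy0 : ¬ (x = 0 ∧ y = 0) := by
    rintro ⟨rfl, rfl⟩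
    rw [isCoprime_zero_left] at hxy
    exact absurd hxy (by decide)
  have hξ0 : ξ ≠ 0 := by
    intro h0
    rw [h0] at hξc
    have h1 := co_int K 0
    rw [Int.cast_zero] at h1
    have h3 := co_unique K _ _ _ _ _ hξc h1
    apply hxy0
    have h4 : y = 0 := h3.2
    refine ⟨?_, h4⟩
    have h5 := h3.1
    rw [h4] at h5
    have h6 : x * Pc a b c = 0 := by linarith
    rcases mul_eq_zero.1 h6 with h7 | h7
    · exact h7
    · omega
  obtain ⟨J, hJ⟩ := Ideal.dvd_iff_le.2 ((Ideal.span_singleton_le_iff_mem _).2 hmem)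
  have hs0 : Ideal.span {ξ} ≠ 0 := by
    rw [Ne, Ideal.zero_eq_bot, Ideal.span_singleton_eq_bot]
    exact hξ0
  have hJ0 : J ≠ 0 := by
    rintro rfl
    rw [mul_zero] at hJ
    exact hs0 hJ
  have hsP : Ideal.span {P} ≠ 0 := by
    rw [Ne, Ideal.zero_eq_bot, Ideal.span_singleton_eq_bot]
    exact hP0
  have hJP : Ideal.span {ξ} * I = Ideal.span {P} * J := by
    rw [hJ, ← hmm]; ring
  -- the class
  have hcl : ClassGroup.mk0 (nz J hJ0) = A := by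
    have h1 : ClassGroup.mk0 (nz I' hI') * ClassGroup.mk0 (nz J hJ0) = 1 := by
      rw [← map_mul, ClassGroup.mk0_eq_one_iff]
      exact ⟨_, hJ.symm⟩
    rw [fd_inv K a b c d w w' I I' h hI hI', hA] at h1
    rw [inv_mul_eq_one] at h1
    exact h1.symm
  -- the norm
  have hnJ : (Ideal.absNorm J : ℤ) = Hv a b c d x y := by
    have h1 := co_norm K h2 him ξ _ _ hξc
    rw [hJ, map_mul] at h1
    push_cast at h1
    rw [hnrm.2, hn.hD] at h1
    have h3 : 4 * Pc a b c * (Ideal.absNorm J : ℤ) = 4 * Pc a b c * Hv a b c d x y := by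
      rw [mul_assoc, h1]
      unfold Hv
      ring
    exact mul_left_cancel₀ (by omega) h3
  -- the cube
  obtain ⟨α, hα⟩ : ∃ α : 𝓞 K, α = (x : 𝓞 K) ^ 3 * (b * P - a * w') +
      3 * (x : 𝓞 K) ^ 2 * y * (b * w - a * R) + 3 * (x : 𝓞 K) * y ^ 2 * (c * w - b * R) +
      (y : 𝓞 K) ^ 3 * (d * w - c * R) := ⟨_, rfl⟩
  have hval : ξ ^ 3 * (b * P - a * w') = P ^ 3 * α := by
    rw [hξ, hα, hP, hR]
    exact alg_val (a : 𝓞 K) b c d w w' x y h.hs h.hm
  have hcube : J ^ 3 = Ideal.span {α} := by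
    have h1 : Ideal.span {P} ^ 3 * J ^ 3 = Ideal.span {P} ^ 3 * Ideal.span {α} := by
      rw [← mul_pow, ← hJP, mul_pow, hcu, Ideal.span_singleton_pow, Ideal.span_singleton_pow,
        Ideal.span_singleton_mul_span_singleton, Ideal.span_singleton_mul_span_singleton, hval]
    exact mul_left_cancel₀ (pow_ne_zero 3 hsP) h1
  -- the coordinates
  have hco : Co K α (Gv a b c d x y) (Fv a b c d x y) := by
    have h0 := fd_co K a b c d w w' I I' h
    rw [← hP] at h0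
    have k0 := co_smul K (x ^ 3) _ _ _ h0
    have k1 := co_smul K (3 * x ^ 2 * y) _ _ _
      (co_add K _ _ _ _ _ _ (co_smul K b w _ _ h.hw) (co_int K (-(a * Pc d c b))))
    have k2 := co_smul K (3 * x * y ^ 2) _ _ _
      (co_add K _ _ _ _ _ _ (co_smul K c w _ _ h.hw) (co_int K (-(b * Pc d c b))))
    have k3 := co_smul K (y ^ 3) _ _ _
      (co_add K _ _ _ _ _ _ (co_smul K d w _ _ h.hw) (co_int K (-(c * Pc d c b))))
    have k := co_add K _ _ _ _ _ _ (co_add K _ _ _ _ _ _ (co_add K _ _ _ _ _ _ k0 k1) k2) k3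
    have e : ((x ^ 3 : ℤ) : 𝓞 K) * (b * P - a * w') +
        ((3 * x ^ 2 * y : ℤ) : 𝓞 K) * (b * w + ((-(a * Pc d c b) : ℤ) : 𝓞 K)) +
        ((3 * x * y ^ 2 : ℤ) : 𝓞 K) * (c * w + ((-(b * Pc d c b) : ℤ) : 𝓞 K)) +
        ((y ^ 3 : ℤ) : 𝓞 K) * (d * w + ((-(c * Pc d c b) : ℤ) : 𝓞 K)) = α := by
      rw [hα, ← hRc]
      push_cast
      ring
    rw [e] at k
    unfold Gv Fv
    convert k using 1 <;> ring
  refine ⟨nz J hJ0, α, hcl, hnJ, hcube, hco, ?_⟩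
  intro n hn2 hle
  have hle' : J ≤ Ideal.span {(n : 𝓞 K)} := hle
  have hle2 : Ideal.span {ξ} * I ≤ Ideal.span {P} * Ideal.span {(n : 𝓞 K)} := by
    rw [hJP]
    exact Ideal.mul_mono_right hle'
  rw [Ideal.span_singleton_mul_span_singleton] at hle2
  have h5 : (n : ℤ) ∣ y := by
    have h6 : ξ * P ∈ Ideal.span {P * (n : 𝓞 K)} := by
      apply hle2
      refine Ideal.mul_mem_mul (Ideal.mem_span_singleton_self _) ?_
      rw [hIe]
      exact Ideal.subset_span (by simp)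
    rw [Ideal.mem_span_singleton, mul_comm ξ P] at h6
    exact co_dvd K h2 him ξ _ _ n hξc ((mul_dvd_mul_iff_left hP0).1 h6)
  have h7 : (n : ℤ) ∣ x := by
    have h6 : ξ * w' ∈ Ideal.span {P * (n : 𝓞 K)} := by
      apply hle2
      refine Ideal.mul_mem_mul (Ideal.mem_span_singleton_self _) ?_
      rw [hIe]
      exact Ideal.subset_span (by simp)
    rw [Ideal.mem_span_singleton] at h6
    have e : ξ * w' = P * ((x : 𝓞 K) * w' + y * R) := by
      rw [hξ]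
      linear_combination (y : 𝓞 K) * hm
    rw [e] at h6
    have h8 := (mul_dvd_mul_iff_left hP0).1 h6
    have h9 := co_add K _ _ _ _ _ _ (co_smul K x w' _ _ h.hw') (co_int K (y * Pc d c b))
    have e2 : (x : 𝓞 K) * w' + ((y * Pc d c b : ℤ) : 𝓞 K) = (x : 𝓞 K) * w' + y * R := by
      rw [← hRc]; push_cast; ring
    rw [e2] at h9
    have h10 := co_dvd K h2 him _ _ _ n h9 h8
    rw [add_zero, mul_neg, mul_one, dvd_neg] at h10
    exact h10
  have h11 := hxy.isUnit_of_dvd' h7 h5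
  rw [Int.isUnit_iff] at h11
  omega

end Pool.Agent.PPG
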